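import Mathlib

set_option autoImplicit false

/-!
# Extremal measures for the Laplacian on the Bernstein space of the Euclidean ball
Definitions and the exact statements of the leaves.
-/

open MeasureTheory Set
open scoped RealInnerProductSpace

namespace Pool.Agent.Helper20K9.EX

/-- Euclidean space of dimension `n`. -/
abbrev E (n : ℕ) := EuclideanSpace ℝ (Fin n)

/-- The Laplacian on real polynomials. -/
noncomputable def lap {n : ℕ} (P : MvPolynomial (Fin n) ℝ) : MvPolynomial (Fin n) ℝ :=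
  ∑ i, MvPolynomial.pderiv i (MvPolynomial.pderiv i P)

/-- `P` is a harmonic polynomial, homogeneous of degree `l`. -/
def Harm {n : ℕ} (l : ℕ) (P : MvPolynomial (Fin n) ℝ) : Prop :=
  P.IsHomogeneous l ∧ lap P = 0

/-- Value of a polynomial at a point of Euclidean space. -/
noncomputable def ev {n : ℕ} (P : MvPolynomial (Fin n) ℝ) (t : E n) : ℝ :=
  MvPolynomial.eval (fun i => t i) P

/-- `ν` is an extremal measure for the Laplacian on `B(K_2)`: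
`∫ exp(-i⟨t,ξ⟩) dν(t) = -|ξ|²` for `|ξ| ≤ 1` and the total variation of `ν` is `n`. -/
def IsExtremal {n : ℕ} (ν : ComplexMeasure (E n)) : Prop :=
  (∀ ξ : E n, ‖ξ‖ ≤ 1 →
    ν.integral (fun t : E n => Complex.exp (-(Complex.I * ((⟪t, ξ⟫ : ℝ) : ℂ))))
      (ContinuousLinearMap.mul ℝ ℂ) = -((‖ξ‖ ^ 2 : ℝ) : ℂ)) ∧
  ν.variation univ = (n : ENNReal)

/-- The right side of the characterisation. -/
def Described {n : ℕ} (ν : ComplexMeasure (E n)) : Prop :=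
  ∃ μ : ℕ → Measure (E n),
    (∀ k, μ k {t | ‖t‖ ≠ Real.pi * k} = 0) ∧
    μ 0 univ = ENNReal.ofReal (n / 3) ∧
    (∀ k, 1 ≤ k → μ k univ = ENNReal.ofReal (4 * n / (Real.pi * k) ^ 2)) ∧
    (∀ (l : ℕ) (H : MvPolynomial (Fin n) ℝ), 1 ≤ l → Harm l H →
      ∃ q : Polynomial ℝ, q.coeff 0 = 0 ∧ 2 * q.natDegree ≤ l - 2 ∧
        ∀ k : ℕ, 1 ≤ k → ∫ t, ev H t ∂(μ k) = q.eval ((k : ℝ) ^ 2)) ∧
    ∀ A : Set (E n), MeasurableSet A →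
      ν A = -∑' k : ℕ, (((-1) ^ k * (μ k A).toReal : ℝ) : ℂ)

/-! ### auxiliary functions -/

/-- the weight `(1 - |ξ|²)_+ ^ (j - (n-1)/2)` -/
noncomputable def w (n j : ℕ) (ξ : E n) : ℝ :=
  (max (1 - ‖ξ‖ ^ 2) 0) ^ ((j : ℝ) - ((n : ℝ) - 1) / 2)

/-- `κ_j(r) = ∫_{-1}^1 cos(r s) (1-s²)^j ds` -/
noncomputable def kap (j : ℕ) (r : ℝ) : ℝ :=
  ∫ s in (-1 : ℝ)..1, Real.cos (r * s) * (1 - s ^ 2) ^ j

/-! ### leaves -/

/-- slices of the weight -/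
def S_SLICE : Prop := ∀ n j : ℕ, 1 ≤ n → n ≤ j → ∃ C : ℝ, 0 < C ∧
  ∀ F : ℝ → ℝ, Continuous F → ∀ e : E n, ‖e‖ = 1 →
    ∫ ξ : E n, F ⟪e, ξ⟫ * w n j ξ = C * ∫ s in (-1 : ℝ)..1, F s * (1 - s ^ 2) ^ j

/-- the Fourier transform of a harmonic polynomial times the weight -/
def S_HOB : Prop := ∀ n j l : ℕ, 1 ≤ n → n ≤ j → ∃ c : ℂ, c ≠ 0 ∧
  ∀ P : MvPolynomial (Fin n) ℝ, Harm l P → ∀ t : E n,
    ∫ ξ : E n, Complex.exp (-(Complex.I * ((⟪t, ξ⟫ : ℝ) : ℂ))) * ((ev P ξ * w n j ξ : ℝ) : ℂ) =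
      c * ((ev P t * kap (j + l) ‖t‖ : ℝ) : ℂ)

/-- polar decomposition of a complex measure -/
def S_POLAR : Prop := ∀ (n : ℕ) (ν : ComplexMeasure (E n)), ν.variation univ ≠ ⊤ →
  ∃ h : E n → ℂ, Measurable h ∧ (∀ t, ‖h t‖ = 1) ∧
    (∀ A, MeasurableSet A → ν A = ∫ t in A, h t ∂ν.variation) ∧
    ∀ f : E n → ℂ, Continuous f → (∃ K : ℝ, ∀ t, ‖f t‖ ≤ K) →
      ν.integral f (ContinuousLinearMap.mul ℝ ℂ) = ∫ t, f t * h t ∂ν.variation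

/-- converse of the polar decomposition -/
def S_DENSITY : Prop := ∀ (n : ℕ) (m : Measure (E n)) [IsFiniteMeasure m] (h : E n → ℂ)
  (ν : ComplexMeasure (E n)), Measurable h → (∀ t, ‖h t‖ = 1) →
  (∀ A, MeasurableSet A → ν A = ∫ t in A, h t ∂m) →
    ν.variation = m ∧ ∀ f : E n → ℂ, Continuous f → (∃ K : ℝ, ∀ t, ‖f t‖ ≤ K) →
      ν.integral f (ContinuousLinearMap.mul ℝ ℂ) = ∫ t, f t * h t ∂m

/-- even functions orthogonal to all `(1-s²)^j` vanish -/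
def S_DENS : Prop := ∀ (D : ℝ → ℂ) (j0 : ℕ), Continuous D → (∀ s, D (-s) = D s) →
  (∀ j, j0 ≤ j → ∫ s in (-1 : ℝ)..1, D s * (((1 - s ^ 2) ^ j : ℝ) : ℂ) = 0) →
    ∀ s ∈ Icc (-1 : ℝ) 1, D s = 0

/-- equality in `|∫ cos|t| h dm| ≤ m(E)` -/
def S_SIGN : Prop := ∀ (n : ℕ) (m : Measure (E n)) [IsFiniteMeasure m] (h : E n → ℂ),
  Measurable h → (∀ t, ‖h t‖ = 1) →
  ∫ t, ((Real.cos ‖t‖ : ℝ) : ℂ) * h t ∂m = (((m univ).toReal : ℝ) : ℂ) →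
    ∀ᵐ t ∂m, ∃ k : ℕ, ‖t‖ = Real.pi * k ∧ h t = (-1) ^ k

/-- the masses are the Fourier coefficients of `n s²` -/
def S_MASS : Prop := ∀ (a : ℝ) (x : ℕ → ℝ), Summable (fun k => |x k|) →
  (∀ s ∈ Icc (-1 : ℝ) 1, ∑' k : ℕ, (-1) ^ k * x k * Real.cos (Real.pi * k * s) = a * s ^ 2) →
    x 0 = a / 3 ∧ ∀ k, 1 ≤ k → x k = 4 * a / (Real.pi * k) ^ 2

/-- the same, converse, integrated against `(1-s²)^j` -/
def S_MASSC : Prop := ∀ (a : ℝ) (x : ℕ → ℝ), x 0 = a / 3 →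
  (∀ k, 1 ≤ k → x k = 4 * a / (Real.pi * k) ^ 2) → Summable x ∧ ∑' k, x k = a ∧
    ∀ j : ℕ, ∑' k : ℕ, (-1) ^ k * x k * kap j (Real.pi * k) =
      a * ∫ s in (-1 : ℝ)..1, s ^ 2 * (1 - s ^ 2) ^ j

/-- moment sequences annihilated by all `κ_j(πk)` are even polynomials in `k` -/
def S_POLY : Prop := ∀ (l j0 : ℕ) (M : ℕ → ℝ) (K : ℝ), 1 ≤ l → l ≤ j0 →
  (∀ k, 1 ≤ k → |M k| * (k : ℝ) ^ 2 ≤ K * (k : ℝ) ^ l) → M 0 = 0 →
  (∀ j, j0 ≤ j → ∑' k : ℕ, (-1) ^ k * M k * kap j (Real.pi * k) = 0) →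
    ∃ q : Polynomial ℝ, q.coeff 0 = 0 ∧ 2 * q.natDegree ≤ l - 2 ∧
      ∀ k : ℕ, 1 ≤ k → M k = q.eval ((k : ℝ) ^ 2)

/-- the converse -/
def S_POLYC : Prop := ∀ (j : ℕ) (q : Polynomial ℝ), q.coeff 0 = 0 → 2 * q.natDegree + 2 ≤ j →
  Summable (fun k : ℕ => (-1) ^ k * q.eval ((k : ℝ) ^ 2) * kap j (Real.pi * k)) ∧
  ∑' k : ℕ, (-1) ^ k * q.eval ((k : ℝ) ^ 2) * kap j (Real.pi * k) = 0

/-- completeness of harmonic polynomials times the weights -/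
def S_COMPL : Prop := ∀ (n : ℕ), 1 ≤ n → ∀ D : E n → ℂ, Continuous D →
  (∀ (l j : ℕ) (P : MvPolynomial (Fin n) ℝ), n ≤ j → Harm l P →
    ∫ ξ, D ξ * ((ev P ξ * w n j ξ : ℝ) : ℂ) = 0) → ∀ ξ : E n, ‖ξ‖ ≤ 1 → D ξ = 0

end Pool.Agent.Helper20K9.EX
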